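import Pool.Agent.Lib.MP_17d4d1_pr.S.Iface

set_option autoImplicit false

/-!
# Statements of the modules (MP_17d4d1_pr, three chains)

`P` is the grid `{0,1,2}^3`, its coordinates are added modulo 3.
-/

namespace Pool.Agent.Lib.MP_17d4d1_pr.C

open Finset Pool.Agent.Lib.MP_17d4d1_pr Pool.Agent.Lib.MP_17d4d1_pr.S

/-- The grid. -/
abbrev P : Type := Fin 3 × Fin 3 × Fin 3

/-- The shifts that change all three coordinates. -/
def D : Finset P := {1, 2} ×ˢ ({1, 2} ×ˢ {1, 2})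

/-- `U` is an up-set of the grid. -/
def Up (U : P → Bool) : Prop := ∀ x y, x ≤ y → U x = true → U y = true

/-- The maximal elements of the complement of `W` lie in `S`. -/
def Cr (W S : P → Bool) : Prop :=
  ∀ x, W x = false → (∀ y, x < y → W y = true) → S x = true

/-- Inequality (1) of the certificate `q` of `H`. -/
def A1 (H : P → Bool) (q : P → ℕ) (W : P → Bool) : Prop :=
  ∑ x, (W x).toNat * q x + ∑ x, ∑ d ∈ D, (W x).toNat * (H (x + d)).toNat ≤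
    16 * ∑ x, (W x).toNat * (H x).toNat

/-- Inequality (2) of the certificate `q` of `H`. -/
def A2 (H : P → Bool) (q : P → ℕ) (U V : P → Bool) : Prop :=
  ∑ x, ∑ d ∈ D, (U x).toNat * (V (x + d)).toNat * ((H x).toNat + (H (x + d)).toNat) ≤
    ∑ x, (U x).toNat * (V x).toNat * q x +
      ∑ x, ∑ d ∈ D, (U x).toNat * (V (x + d)).toNat * (H (x + d + d)).toNat

/-- PACK. Packed numbers: digits in base 1024, and sets as binary numbers. -/
def PACK_S : Prop :=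
  (∀ (c : Fin 27 → ℕ) (h : Fin 27 → Bool), (∀ i, c i < 1024) →
    Nat.land (∑ i, c i * 1024 ^ (i : ℕ)) (∑ i, (h i).toNat * (1023 * 1024 ^ (i : ℕ))) =
      ∑ i, (h i).toNat * c i * 1024 ^ (i : ℕ)) ∧
  (∀ c : Fin 27 → ℕ, ∑ i, c i < 1023 → (∑ i, c i * 1024 ^ (i : ℕ)) % 1023 = ∑ i, c i) ∧
  (∀ U V : Fin 27 → Bool, Nat.land (∑ i, (U i).toNat * 2 ^ (i : ℕ)) (∑ i, (V i).toNat * 2 ^ (i : ℕ)) =
      ∑ i, (U i && V i).toNat * 2 ^ (i : ℕ)) ∧
  (∀ U V : Fin 27 → Bool, ∑ i, (U i).toNat * 2 ^ (i : ℕ) = ∑ i, (V i).toNat * 2 ^ (i : ℕ) → U = V) ∧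
  (∀ N : ℕ, N < 1024 ^ 27 → ∃ c : Fin 27 → ℕ, (∀ i, c i < 1024) ∧ N = ∑ i, c i * 1024 ^ (i : ℕ))

/-- KER. The certificates, for critical up-sets. -/
def KER_S : Prop := ∀ H : P → Bool, Up H → ∃ q : P → ℕ, (∀ x, H x = false → q x = 0) ∧
  (∀ W, Up W → Cr W H → A1 H q W) ∧
  (∀ U V, Up U → Up V → Cr U V → Cr V U → Cr U H → Cr V H → A2 H q U V)

/-- The certificates, for all up-sets. -/
def CERT_S : Prop := ∀ H : P → Bool, Up H → ∃ q : P → ℕ,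
  (∀ W, Up W → A1 H q W) ∧ (∀ U V, Up U → Up V → A2 H q U V)

/-- CRIT. It is enough to look at critical up-sets. -/
def CRIT_S : Prop := KER_S → CERT_S

/-- Nonnegative nondecreasing. -/
structure Mo {α : Type} [Preorder α] (f : α → ℝ) : Prop where
  nn : ∀ x, 0 ≤ f x
  mono : Monotone f

/-- The polarised functional on the grid. -/
def Pure (h k a b : P → ℝ) : ℝ :=
  ∑ x : P, ∑ d ∈ D, (2 * (h x * k x) - h x * k (x + d) - h x * a x * b (x + d)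
    - h x * b x * a (x + d) + h x * (a (x + d) * b (x + d + d)))

/-- The polarised functional is nonnegative. -/
def PURE_S : Prop := ∀ h k a b : P → ℝ, Mo h → Mo k → Mo a → Mo b →
  (∀ x, a x * b x ≤ k x) → 0 ≤ Pure h k a b

/-- PUREF. From the certificates to functions. -/
def PUREF_S : Prop := CERT_S → PURE_S

/-- Expectation on a product of three finite sets. -/
def E3p {A B C : Type} [Fintype A] [Fintype B] [Fintype C] (p : A → ℝ) (q : B → ℝ) (r : C → ℝ)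
    (u : A × B × C → ℝ) : ℝ :=
  ∑ x, ∑ y, ∑ z, p x * q y * r z * u (x, y, z)

/-- Product weights on three finite totally ordered sets. -/
def THREEP_S : Prop := ∀ (A B C : Type) [Fintype A] [Fintype B] [Fintype C] [LinearOrder A]
  [LinearOrder B] [LinearOrder C] (p : A → ℝ) (q : B → ℝ) (r : C → ℝ),
  (∀ x, 0 ≤ p x) → (∀ x, 0 ≤ q x) → (∀ x, 0 ≤ r x) → ∑ x, p x = 1 → ∑ x, q x = 1 → ∑ x, r x = 1 →
  ∀ h k a b : A × B × C → ℝ, Mo h → Mo k → Mo a → Mo b → (∀ x, a x * b x ≤ k x) →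
  0 ≤ 2 * E3p p q r (h * k) - E3p p q r h * E3p p q r k - E3p p q r (h * a) * E3p p q r b
    - E3p p q r (h * b) * E3p p q r a + E3p p q r h * E3p p q r a * E3p p q r b

/-- POL. Polarisation. -/
def POL_S : Prop := PURE_S → THREEP_S

/-- COUPLE. Monotone coupling of a stochastically increasing family of laws on a chain. -/
def COUPLE_S : Prop := ∀ (T : Type) [Fintype T] [Preorder T] (n : ℕ) (p : T → Fin n → ℝ),
  (∀ t c, 0 ≤ p t c) → (∀ t, ∑ c, p t c = 1) →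
  (∀ s t, s ≤ t → ∀ c, ∑ i ∈ univ.filter (· ≤ c), p t i ≤ ∑ i ∈ univ.filter (· ≤ c), p s i) →
  ∃ (S : Type) (_ : Fintype S) (_ : LinearOrder S) (r : S → ℝ) (φ : T → S → Fin n),
    (∀ x, 0 < r x) ∧ ∑ x, r x = 1 ∧ (∀ s t x y, s ≤ t → x ≤ y → φ s x ≤ φ t y) ∧
    ∀ t (u : Fin n → ℝ), ∑ c, p t c * u c = ∑ x, r x * u (φ t x)

/-- STEP. Disintegration of a family of FKG weights along one chain. -/
def STEP_S : Prop := ∀ (X : Type) [Fintype X] [DecidableEq X] (Y : Finset X) (T : Type)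
  [Fintype T] [Preorder T] (w : T → Finset X → ℝ), (∀ t, FKGW (w t)) →
  (∀ s t, s ≤ t → Hol (w s) (w t)) →
  (∀ s t A B, w s A ≠ 0 → w t B ≠ 0 → A ∩ Y ⊆ B ∩ Y ∨ B ∩ Y ⊆ A ∩ Y) →
  ∃ (S : Type) (_ : Fintype S) (_ : LinearOrder S) (r : S → ℝ) (v : T → S → Finset X → ℝ),
    (∀ x, 0 ≤ r x) ∧ ∑ x, r x = 1 ∧ (∀ t x, FKGW (v t x)) ∧
    (∀ s t x y, s ≤ t → x ≤ y → Hol (v s x) (v t y)) ∧
    (∀ t u, Ex (w t) u = ∑ x, r x * Ex (v t x) u) ∧
    (∀ t x A, v t x A ≠ 0 → w t A ≠ 0) ∧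
    (∀ t x A B, v t x A ≠ 0 → v t x B ≠ 0 → A ∩ Y = B ∩ Y)

/-- `A ∩ Y` runs through a chain when `A` runs through `L`. -/
def ChainOn {X : Type} [DecidableEq X] (L : Set (Finset X)) (Y : Finset X) : Prop :=
  ∀ A ∈ L, ∀ B ∈ L, A ∩ Y ⊆ B ∩ Y ∨ B ∩ Y ⊆ A ∩ Y

/-- BASE. The third function depends on three chains. -/
def BASE_S : Prop := ∀ (X : Type) [Fintype X] [DecidableEq X] (w f g h : Finset X → ℝ)
  (Y₁ Y₂ Y₃ : Finset X), FKGW w → Inc f → Inc g → Inc h → ChainOn {A | w A ≠ 0} Y₁ →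
  ChainOn {A | w A ≠ 0} Y₂ → ChainOn {A | w A ≠ 0} Y₃ →
  (∀ A, h (A ∩ (Y₁ ∪ Y₂ ∪ Y₃)) = h A) → 0 ≤ E3 w f g h

/-- The class of third functions; `L` is a family of sets on which the weights live. -/
inductive Cls3 {X : Type} [DecidableEq X] (L : Set (Finset X)) : (Finset X → ℝ) → Prop
  | chains (Y₁ Y₂ Y₃ : Finset X) (u : Finset X → ℝ) : ChainOn L Y₁ → ChainOn L Y₂ →
      ChainOn L Y₃ → Inc u → (∀ A, u (A ∩ (Y₁ ∪ Y₂ ∪ Y₃)) = u A) → Cls3 L u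
  | two (Y : Finset X) : Cls3 L (thr Y)
  | add (u v : Finset X → ℝ) : Cls3 L u → Cls3 L v → Cls3 L (u + v)
  | mul (k u : Finset X → ℝ) : (∀ A, 0 ≤ k A) → Monotone k →
      (∀ A B, k A * k B ≤ k (A ⊓ B) * k (A ⊔ B)) → Cls3 L u → Cls3 L (k * u)
  | or (v : X) (c : ℝ) (u : Finset X → ℝ) : Cls3 L u → (∀ A, u A ≤ c) →
      Cls3 L (fun A => if v ∈ A then c else u A)

/-- CLS3. -/
def CLS3_S : Prop := ∀ (X : Type) [Fintype X] [DecidableEq X] (L : Set (Finset X))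
  (w f g h : Finset X → ℝ), FKGW w → (∀ A, w A ≠ 0 → A ∈ L) → Inc f → Inc g → Cls3 L h →
  0 ≤ E3 w f g h

/-- MAIN. All numbers of functions. -/
def MAIN_S : Prop := ∀ (X : Type) [Fintype X] [DecidableEq X] (ι : Type) [DecidableEq ι]
  [Fintype ι] (w : Finset X → ℝ), FKGW w → ∀ (a b c : ι) (F : ι → Finset X → ℝ),
  (∀ i, Inc (F i)) → Cls3 {A | w A ≠ 0} (F c) →
  (∀ k, k ≠ a → k ≠ b → k ≠ c → F k ∈ AddSubmonoid.closure
    {h : Finset X → ℝ | (∀ A, 0 ≤ h A) ∧ Monotone h ∧ ∀ A B, h A * h B ≤ h (A ⊓ B) * h (A ⊔ B)}) →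
  0 ≤ En w F univ

end Pool.Agent.Lib.MP_17d4d1_pr.C
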